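import Mathlib

/-!
MP_4b9821_co: three-sunflower-free families of `l`-element sets, any two of which meet in at most
`t` elements.
-/

set_option autoImplicit false

namespace Pool.Agent.Work.MP_4b9821_co

variable {α : Type*} [DecidableEq α]

/-- Three distinct sets with equal pairwise intersections. -/
def Sunflower (A B C : Finset α) : Prop :=
  A ≠ B ∧ A ≠ C ∧ B ≠ C ∧ A ∩ B = A ∩ C ∧ A ∩ C = B ∩ C

/-- `F` consists of `l`-element sets, is three-sunflower-free, and any two distinct members meet in at
most `t` elements. -/
def Adm (l t : ℕ) (F : Finset (Finset α)) : Prop :=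
  (∀ A ∈ F, A.card = l) ∧ (∀ A ∈ F, ∀ B ∈ F, A ≠ B → (A ∩ B).card ≤ t) ∧
    ∀ A ∈ F, ∀ B ∈ F, ∀ C ∈ F, ¬ Sunflower A B C

/-- Any two distinct members meet. -/
def Inter (F : Finset (Finset α)) : Prop :=
  ∀ A ∈ F, ∀ B ∈ F, A ≠ B → (A ∩ B).Nonempty

/-- The largest size of a three-sunflower-free family of `l`-element sets (of natural numbers), any two
of which meet in at most `t` elements. -/
noncomputable def M3 (l t : ℕ) : ℕ :=
  sSup {n | ∃ F : Finset (Finset ℕ), Adm l t F ∧ F.card = n}

/-- The largest size of such a family that is in addition intersecting. -/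
noncomputable def I3 (l t : ℕ) : ℕ :=
  sSup {n | ∃ F : Finset (Finset ℕ), Adm l t F ∧ Inter F ∧ F.card = n}

/-- The degree of an element. -/
def deg (F : Finset (Finset α)) (x : α) : ℕ := (F.filter (fun A => x ∈ A)).card

/-- The number of members that contain `x` and `y`. -/
def codeg (F : Finset (Finset α)) (x y : α) : ℕ := (F.filter (fun A => x ∈ A ∧ y ∈ A)).card

/-- The ground set. -/
def gr (F : Finset (Finset α)) : Finset α := F.biUnion id

/-- The number of ordered pairs of distinct members that meet in exactly two elements. -/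
def two (F : Finset (Finset α)) : ℕ :=
  ((F ×ˢ F).filter (fun p => p.1 ≠ p.2 ∧ (p.1 ∩ p.2).card = 2)).card

end Pool.Agent.Work.MP_4b9821_co
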